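import Mathlib
import Pool.Agent.H440R2.Schwarz
import Pool.Agent.H440R2.LFL
import Pool.Agent.N854.MX2.Zero
import Pool.Agent.N576.MX2.D

/-!
Core estimate for `|b log q - a log λ|`, `λ = la u`, `N q = A₀ + A₁ λ`.
-/

set_option autoImplicit false

namespace Pool.Agent.N854.MX2

open Finset Polynomial Pool.Agent.H440R2 Pool.Agent.N576.MX2

section ring

lemma not_square {u k : ℤ} (hu : 1 ≤ u) : k ^ 2 ≠ 9 * u ^ 2 - 4 := by
  intro h
  have h1 : |k| < 3 * u := by
    apply abs_lt_of_sq_lt_sq _ (by omega)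
    nlinarith
  have h2 : 3 * u - 1 ≤ |k| := by
    by_contra hc
    rw [not_le] at hc
    have h5 := abs_nonneg k
    have h6 := sq_abs k
    nlinarith
  have h3 : |k| = 3 * u - 1 := by omega
  have h4 : k ^ 2 = (3 * u - 1) ^ 2 := by rw [← h3, sq_abs]
  rw [h4] at h
  have : 6 * u = 5 := by linarith
  omega

lemma De_pos {u : ℤ} (hu : 1 ≤ u) : 0 < De u := by
  have : (1 : ℝ) ≤ u := by exact_mod_cast hu
  unfold De
  nlinarith

lemma sq_sqrt {u : ℤ} (hu : 1 ≤ u) : Real.sqrt (De u) ^ 2 = 9 * (u : ℝ) ^ 2 - 4 := by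
  rw [Real.sq_sqrt (De_pos hu).le]
  rfl

lemma la_eq (u : ℤ) : la u = (3 * u + Real.sqrt (De u)) / 2 := rfl

lemma la_quad {u : ℤ} (hu : 1 ≤ u) : la u ^ 2 = 3 * u * la u - 1 := by
  have h := sq_sqrt hu
  rw [la_eq]
  nlinarith

lemma sqrt_ge {u : ℤ} (hu : 1 ≤ u) : 3 * (u : ℝ) - 1 ≤ Real.sqrt (De u) := by
  have : (1 : ℝ) ≤ u := by exact_mod_cast hu
  apply Real.le_sqrt_of_sq_le
  unfold De
  nlinarith

lemma la_gt {u : ℤ} (hu : 1 ≤ u) : (5 / 2 : ℝ) ≤ la u := by
  have h1 : (1 : ℝ) ≤ u := by exact_mod_cast hu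
  have h2 := sqrt_ge hu
  rw [la_eq]
  linarith

lemma la_inv {u : ℤ} (hu : 1 ≤ u) : (la u)⁻¹ = 3 * u - la u := by
  have h1 := la_gt hu
  have h2 := la_quad hu
  have h3 : la u ≠ 0 := by linarith
  field_simp
  linarith

lemma la_inv_quad {u : ℤ} (hu : 1 ≤ u) : (la u)⁻¹ ^ 2 = 3 * u * (la u)⁻¹ - 1 := by
  rw [la_inv hu]
  have h2 := la_quad hu
  nlinarith

lemma red (u : ℤ) (G : ℤ[X]) : ∃ x y : ℤ, ∀ t : ℝ, t ^ 2 = 3 * u * t - 1 → aeval t G = x + y * t := by
  induction G using Polynomial.induction_on with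
  | C a => exact ⟨a, 0, fun t _ => by simp⟩
  | add p q hp hq =>
    obtain ⟨x, y, h⟩ := hp
    obtain ⟨x', y', h'⟩ := hq
    refine ⟨x + x', y + y', fun t ht => ?_⟩
    rw [map_add, h t ht, h' t ht]
    push_cast
    ring
  | monomial n a h =>
    obtain ⟨x, y, h⟩ := h
    refine ⟨-y, x + 3 * u * y, fun t ht => ?_⟩
    have e : (C a * X ^ (n + 1) : ℤ[X]) = (C a * X ^ n) * X := by ring
    rw [e, map_mul, h t ht, aeval_X]
    push_cast
    linear_combination (y : ℝ) * ht

lemma norm_ge {u : ℤ} (hu : 1 ≤ u) (G : ℤ[X]) (hG : aeval (la u) G ≠ 0) :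
    1 ≤ |aeval (la u) G| * |aeval (la u)⁻¹ G| := by
  obtain ⟨x, y, h⟩ := red u G
  have h1 := h (la u) (la_quad hu)
  have h2 := h (la u)⁻¹ (la_inv_quad hu)
  have hinv := la_inv hu
  have hq := la_quad hu
  have hprod : aeval (la u) G * aeval (la u)⁻¹ G = ((x ^ 2 + 3 * u * x * y + y ^ 2 : ℤ) : ℝ) := by
    rw [h1, h2, hinv]
    push_cast
    linear_combination (-(y : ℝ) ^ 2) * hq
  rw [← abs_mul, hprod]
  have hne : x ^ 2 + 3 * u * x * y + y ^ 2 ≠ 0 := by
    intro h0
    have h3 : (2 * x + 3 * u * y) ^ 2 = (9 * u ^ 2 - 4) * y ^ 2 := by linear_combination 4 * h0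
    by_cases hy : y = 0
    · subst hy
      have hx : x = 0 := by
        have : x ^ 2 = 0 := by linarith
        exact pow_eq_zero_iff (two_ne_zero) |>.1 this
      apply hG
      rw [h1, hx]
      simp
    · have hd : y ∣ 2 * x + 3 * u * y := by
        have : y ^ 2 ∣ (2 * x + 3 * u * y) ^ 2 := ⟨9 * u ^ 2 - 4, by rw [h3]; ring⟩
        exact (Int.pow_dvd_pow_iff (by norm_num)).1 this
      obtain ⟨k, hk⟩ := hd
      have h4 : k ^ 2 = 9 * u ^ 2 - 4 := by
        rw [hk] at h3
        have h5 : y ^ 2 * (k ^ 2 - (9 * u ^ 2 - 4)) = 0 := by linear_combination h3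
        rcases mul_eq_zero.1 h5 with h6 | h6
        · exact absurd (pow_eq_zero_iff (two_ne_zero) |>.1 h6) hy
        · linarith
      exact not_square hu h4
  rw [← Int.cast_abs]
  exact_mod_cast Int.one_le_abs hne

end ring

/-- **Core estimate.** -/
theorem core (u : ℤ) (hu : 1 ≤ u) (A0 A1 : ℤ) (N0 : ℕ) (q : ℝ) (hq : 0 < q) (hN : 1 ≤ N0)
    (hNq : q * N0 = A0 + A1 * la u) (a b Y L : ℕ) (ha1 : 1 ≤ a) (hb1 : 1 ≤ b)
    (hab : Nat.Coprime a b) (hY : 1 ≤ Y) (hL1 : 1 ≤ L)
    (hpY : Real.log (la u) ≤ Y) (hqY : Real.log q ≤ Y)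
    (hconj : |(A0 : ℝ) + A1 * (la u)⁻¹| ≤ Real.exp Y) (hNY : (N0 : ℝ) ≤ Real.exp Y)
    (hMa : 169 * Y * L ≤ a)
    (hL : 16 * (1 + Real.log (338 * Y * L * (a + b))) ≤ L) :
    Real.exp (-(28392 * (Y:ℝ) ^ 2 * (L:ℝ) ^ 2)) < |b * Real.log q - a * Real.log (la u)| := by
  classical
  by_contra hcon
  rw [not_lt] at hcon
  have hpg : (5 / 2 : ℝ) ≤ la u := la_gt hu
  set p : ℝ := la u with hp
  have hp1 : 1 < p := by linarith
  have hp0 : 0 < p := by linarith
  set Λ : ℝ := b * Real.log q - a * Real.log p with hΛ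
  set M : ℕ := 169 * Y * L with hM
  set K : ℕ := 168 * M * Y with hK
  have hYr : (1:ℝ) ≤ Y := by exact_mod_cast hY
  have hLr : (1:ℝ) ≤ L := by exact_mod_cast hL1
  have har : (1:ℝ) ≤ a := by exact_mod_cast ha1
  have hbr : (1:ℝ) ≤ b := by exact_mod_cast hb1
  have hMr : (M:ℝ) = 169 * Y * L := by rw [hM]; push_cast; ring
  have hYLr : (1:ℝ) ≤ Y * L := one_le_mul_of_one_le_of_one_le hYr hLr
  have hM1 : (1:ℝ) ≤ M := by rw [hMr, mul_assoc]; linarith
  have hKr : (K:ℝ) = 168 * M * Y := by rw [hK]; push_cast; ring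
  have hMpos : 1 ≤ M := by exact_mod_cast hM1
  have hLM : (L:ℝ) ≤ M := by
    rw [hMr]
    have : (L:ℝ) ≤ Y * L := le_mul_of_one_le_left (by linarith) hYr
    linarith
  have hKL : (K:ℝ) * L = 28392 * (Y:ℝ) ^ 2 * (L:ℝ) ^ 2 := by rw [hKr, hMr]; ring
  have hlogp : 0 < Real.log p := Real.log_pos hp1
  -- the zero estimate
  have hzeroM : L * (K - 1) < M * M := by
    have h1 : L * K < M * M := by
      have : K * L = 168 * M * (Y * L) := by rw [hK]; ring
      have h2 : M * M = M * (169 * (Y * L)) := by rw [hM]; ring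
      have hYL : 0 < Y * L := Nat.mul_pos hY hL1
      rw [Nat.mul_comm L K, this, h2]
      have h3 : 168 * M * (Y * L) = M * (168 * (Y * L)) := by ring
      rw [h3]
      exact Nat.mul_lt_mul_of_pos_left (by omega) hMpos
    exact lt_of_le_of_lt (Nat.mul_le_mul_left _ (Nat.sub_le _ _)) h1
  obtain ⟨j, hjT, hdet⟩ := exists_det_ne_zero (ι := Fin K × Fin L) (T := ℕ × ℕ)
    (fun τ i => ((τ.1 * b + τ.2 * a : ℕ) : ℝ) ^ (i.1 : ℕ) * (p ^ τ.1 * q ^ τ.2) ^ (i.2 : ℕ))
    {τ | τ.1 < M + L ∧ τ.2 < M} (by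
      intro c hc
      have := zero_estimate_real K L M p q a b hp1 hq hab hMa ha1 hzeroM
        (fun k l => c (k, l)) (by
          intro r s hr hs
          have := hc (r, s) ⟨hr, hs⟩
          rw [← this, Fintype.sum_prod_type])
      ext ⟨k, l⟩
      exact congrFun (congrFun this k) l)
  clear_value K M
  set E : Matrix (Fin K × Fin L) (Fin K × Fin L) ℝ := Matrix.of fun i i' =>
    (((j i').1 * b + (j i').2 * a : ℕ) : ℝ) ^ (i.1 : ℕ) *
      (p ^ (j i').1 * q ^ (j i').2) ^ (i.2 : ℕ) with hE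
  set X : ℝ := (M + L) * b + M * a with hX
  have hX1 : 1 ≤ X := by
    have h1 : 1 ≤ ((M:ℝ) + L) * b := one_le_mul_of_one_le_of_one_le (by linarith) hbr
    have h2 : 0 ≤ (M:ℝ) * a := by positivity
    rw [hX]
    linarith
  have hxle : ∀ i' : Fin K × Fin L, (((j i').1 * b + (j i').2 * a : ℕ) : ℝ) ≤ X := by
    intro i'
    have h1 : (j i').1 < M + L := (hjT i').1
    have h2 : (j i').2 < M := (hjT i').2
    rw [hX]
    push_cast
    have h1' : ((j i').1 : ℝ) ≤ M + L := by exact_mod_cast h1.le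
    have h2' : ((j i').2 : ℝ) ≤ M := by exact_mod_cast h2.le
    exact add_le_add (mul_le_mul_of_nonneg_right h1' (by linarith))
      (mul_le_mul_of_nonneg_right h2' (by linarith))
  obtain ⟨N, hNdef⟩ : ∃ N : ℕ, N = K * L := ⟨_, rfl⟩
  have hNc : Fintype.card (Fin K × Fin L) = N := by rw [hNdef]; simp
  have hNr : (N:ℝ) = 28392 * (Y:ℝ) ^ 2 * (L:ℝ) ^ 2 := by rw [hNdef]; push_cast; exact hKL
  have hNbig : (28392:ℝ) ≤ N := by
    rw [hNr]
    have : (1:ℝ) ≤ (Y:ℝ)^2 * (L:ℝ)^2 :=
      one_le_mul_of_one_le_of_one_le (one_le_pow₀ hYr) (one_le_pow₀ hLr)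
    linarith
  have hNpos : (0:ℝ) < N := by linarith
  -- lower bound of the determinant
  set R : ℝ := X ^ K * Real.exp (2 * (Y * M * L)) with hR
  have hR0 : 0 < R := by rw [hR]; positivity
  have hdet1 : 1 ≤ ((N:ℝ) ^ N * R ^ N) * |E.det| := by
    set Z : Matrix (Fin K × Fin L) (Fin K × Fin L) ℤ[X] := Matrix.of fun i i' =>
      C ((((j i').1 * b + (j i').2 * a : ℕ) : ℤ) ^ (i.1 : ℕ)) *
        ((Polynomial.X : ℤ[X]) ^ (j i').1 * (C A0 + C A1 * (Polynomial.X : ℤ[X])) ^ (j i').2 *
          C ((N0 : ℤ) ^ (M - (j i').2))) ^ (i.2 : ℕ) with hZ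
    have hev : ∀ t : ℝ, aeval t Z.det = (Matrix.of fun i i' : Fin K × Fin L =>
        (((j i').1 * b + (j i').2 * a : ℕ) : ℝ) ^ (i.1 : ℕ) *
        (t ^ (j i').1 * (A0 + A1 * t) ^ (j i').2 * (N0 : ℝ) ^ (M - (j i').2)) ^ (i.2 : ℕ)).det := by
      intro t
      have h1 := AlgHom.map_det (aeval t : ℤ[X] →ₐ[ℤ] ℝ) Z
      rw [h1]
      congr 1
      ext i i'
      simp [hZ]
    have hp_eval : aeval p Z.det = (∏ i : Fin K × Fin L, ((N0 : ℝ) ^ M) ^ (i.2 : ℕ)) * E.det := by
      rw [hev p, ← Matrix.det_mul_column (fun i : Fin K × Fin L => ((N0 : ℝ) ^ M) ^ (i.2 : ℕ))]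
      congr 1
      ext i i'
      simp only [hE, Matrix.of_apply]
      have h2 : (j i').2 < M := (hjT i').2
      have h3 : (N0 : ℝ) ^ M = (N0 : ℝ) ^ (j i').2 * (N0 : ℝ) ^ (M - (j i').2) := by
        rw [← pow_add]
        congr 1
        omega
      rw [← hNq, h3]
      ring
    have hne : aeval p Z.det ≠ 0 := by
      rw [hp_eval]
      refine mul_ne_zero (Finset.prod_ne_zero_iff.2 fun i _ => ?_) hdet
      have : (N0 : ℝ) ≠ 0 := by
        have : N0 ≠ 0 := by omega
        exact_mod_cast this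
      positivity
    have h1 := norm_ge hu Z.det hne
    have hN01 : (1:ℝ) ≤ N0 := by exact_mod_cast hN
    have hexpM : (1:ℝ) ≤ Real.exp (Y * M) := Real.one_le_exp (by positivity)
    have hEM : (N0 : ℝ) ^ M ≤ Real.exp (Y * M) := by
      rw [mul_comm, Real.exp_nat_mul]
      exact pow_le_pow_left₀ (by linarith) hNY M
    have hb1 : |∏ i : Fin K × Fin L, ((N0 : ℝ) ^ M) ^ (i.2 : ℕ)| ≤ Real.exp (Y * M * L) ^ N := by
      rw [abs_of_nonneg (by positivity)]
      calc ∏ i : Fin K × Fin L, ((N0 : ℝ) ^ M) ^ (i.2 : ℕ) ≤ ∏ _i : Fin K × Fin L, Real.exp (Y * M * L) := by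
            apply prod_le_prod
            · intro i _
              positivity
            · intro i _
              calc ((N0 : ℝ) ^ M) ^ (i.2 : ℕ) ≤ Real.exp (Y * M) ^ (i.2 : ℕ) :=
                    pow_le_pow_left₀ (by positivity) hEM _
                _ ≤ Real.exp (Y * M) ^ L := pow_le_pow_right₀ hexpM i.2.2.le
                _ = Real.exp (Y * M * L) := by rw [← Real.exp_nat_mul]; congr 1; ring
        _ = Real.exp (Y * M * L) ^ N := by rw [prod_const, card_univ, hNc]
    have hb2 : |aeval p⁻¹ Z.det| ≤ (N:ℝ) ^ N * (X ^ K * Real.exp (Y * M * L)) ^ N := by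
      rw [hev p⁻¹]
      have h2 := abs_det_le_prod (Matrix.of fun i i' : Fin K × Fin L =>
        (((j i').1 * b + (j i').2 * a : ℕ) : ℝ) ^ (i.1 : ℕ) *
        (p⁻¹ ^ (j i').1 * (A0 + A1 * p⁻¹) ^ (j i').2 * (N0 : ℝ) ^ (M - (j i').2)) ^ (i.2 : ℕ))
        (fun _ => X ^ K * Real.exp (Y * M * L)) (by
          intro i i'
          simp only [Matrix.of_apply, abs_mul, abs_pow]
          have h3 : |(((j i').1 * b + (j i').2 * a : ℕ) : ℝ)| ^ (i.1 : ℕ) ≤ X ^ K := by
            rw [Nat.abs_cast]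
            calc (((j i').1 * b + (j i').2 * a : ℕ) : ℝ) ^ (i.1 : ℕ) ≤ X ^ (i.1 : ℕ) :=
                  pow_le_pow_left₀ (by positivity) (hxle i') _
              _ ≤ X ^ K := pow_le_pow_right₀ hX1 i.1.2.le
          have h4 : |p⁻¹| ^ (j i').1 * |(A0 : ℝ) + A1 * p⁻¹| ^ (j i').2 * |(N0 : ℝ)| ^ (M - (j i').2) ≤
              Real.exp (Y * M) := by
            have h5 : |p⁻¹| ≤ 1 := by
              rw [abs_of_pos (by positivity)]
              exact inv_le_one_of_one_le₀ hp1.le
            have h2 : (j i').2 < M := (hjT i').2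
            have h6 : Real.exp (Y * M) = 1 * Real.exp Y ^ (j i').2 * Real.exp Y ^ (M - (j i').2) := by
              rw [one_mul, ← pow_add, mul_comm, Real.exp_nat_mul]
              congr 1
              omega
            rw [h6]
            gcongr
            · exact pow_le_one₀ (abs_nonneg _) h5
            · rw [Nat.abs_cast]
              exact hNY
          calc _ ≤ X ^ K * (Real.exp (Y * M)) ^ (i.2 : ℕ) := by gcongr
            _ ≤ X ^ K * Real.exp (Y * M) ^ L := by
              apply mul_le_mul_of_nonneg_left _ (by positivity)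
              exact pow_le_pow_right₀ hexpM i.2.2.le
            _ = X ^ K * Real.exp (Y * M * L) := by
              rw [← Real.exp_nat_mul]
              congr 2
              ring)
      refine h2.trans ?_
      rw [prod_const, card_univ, hNc]
      apply mul_le_mul_of_nonneg_right _ (by positivity)
      exact_mod_cast Nat.factorial_le_pow N
    rw [hp_eval, abs_mul] at h1
    calc (1:ℝ) ≤ _ := h1
      _ ≤ (Real.exp (Y * M * L) ^ N * |E.det|) * ((N:ℝ) ^ N * (X ^ K * Real.exp (Y * M * L)) ^ N) := by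
          gcongr
      _ = ((N:ℝ) ^ N * R ^ N) * |E.det| := by
          have : R = Real.exp (Y * M * L) * (X ^ K * Real.exp (Y * M * L)) := by
            rw [hR, two_mul, Real.exp_add]
            ring
          rw [this]
          ring
  -- analytic estimate
  set c : ℝ := Real.log p / b with hc
  have hc0 : 0 ≤ c := by rw [hc]; positivity
  have hEeq : E = Matrix.of fun i i' : Fin K × Fin L =>
      (fun i' => (((j i').1 * b + (j i').2 * a : ℕ) : ℝ)) i' ^ ((fun i : Fin K × Fin L => (i.1 : ℕ)) i) *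
      Real.exp (((fun i : Fin K × Fin L => (i.2 : ℕ)) i : ℕ) *
        (c * (fun i' => (((j i').1 * b + (j i').2 * a : ℕ) : ℝ)) i' +
          (fun i' => ((j i').2 : ℝ) * Λ / b) i')) := by
    ext i i'
    simp only [hE, Matrix.of_apply]
    congr 1
    have h1 : c * (((j i').1 * b + (j i').2 * a : ℕ) : ℝ) + ((j i').2 : ℝ) * Λ / b
        = (j i').1 * Real.log p + (j i').2 * Real.log q := by
      rw [hc, hΛ]
      push_cast
      field_simp
      ring
    rw [h1]
    rw [Real.exp_nat_mul, Real.exp_add, Real.exp_nat_mul, Real.exp_nat_mul, Real.exp_log hp0,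
      Real.exp_log hq]
  have hschw := schwarz_exp (ι := Fin K × Fin L) (fun i => (i.1 : ℕ)) (fun i => (i.2 : ℕ))
    (fun i' => (((j i').1 * b + (j i').2 * a : ℕ) : ℝ))
    (fun i' => ((j i').2 : ℝ) * Λ / b) c X (M * |Λ| / b) (Real.exp 1) hc0 (by linarith)
    (by positivity) (by rw [← Real.exp_zero]; exact Real.exp_le_exp.mpr (by norm_num))
    (by
      intro i'
      rw [abs_of_nonneg (by positivity)]
      exact hxle i')
    (by
      intro i'
      have h2 : (j i').2 < M := (hjT i').2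
      have h2' : ((j i').2 : ℝ) ≤ M := by exact_mod_cast h2.le
      rw [abs_div, abs_mul, Nat.abs_cast, Nat.abs_cast]
      gcongr)
  rw [← hEeq, hNc] at hschw
  clear_value E X c
  -- bound of W
  set W : ℝ := c * (Real.exp 1 * X) + Real.exp 1 ^ N * (M * |Λ| / b) with hW
  have he1 : Real.exp 1 < 2.7182818286 := Real.exp_one_lt_d9
  have hexpN : Real.exp 1 ^ N * |Λ| ≤ 1 := by
    rw [← Real.exp_nat_mul, mul_one]
    calc Real.exp N * |Λ| ≤ Real.exp N * Real.exp (-(28392 * (Y:ℝ) ^ 2 * (L:ℝ) ^ 2)) := by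
          gcongr
      _ = 1 := by rw [← Real.exp_add, hNr]; simp
  have hΛ1 : |Λ| ≤ 1 := by
    refine hcon.trans ?_
    rw [Real.exp_le_one_iff]
    have : 0 ≤ 28392 * (Y:ℝ) ^ 2 * (L:ℝ) ^ 2 := by positivity
    linarith
  have hcX : c * X ≤ 4 * M * Y := by
    have h1 : c * X = (M + L) * Real.log p + M * (a * Real.log p / b) := by
      rw [hc, hX]
      field_simp
    have h2 : a * Real.log p / b ≤ Y + 1 := by
      have h3 : a * Real.log p = b * Real.log q - Λ := by rw [hΛ]; ring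
      rw [h3, sub_div, mul_div_assoc, mul_comm, div_mul_cancel₀ _ (by positivity)]
      have h4 : -Λ / b ≤ 1 := by
        rw [div_le_one (by positivity)]
        have := neg_le_abs Λ
        linarith
      rw [neg_div] at h4
      linarith
    rw [h1]
    have h5 : (M + L) * Real.log p ≤ (M + M) * Y := by
      apply mul_le_mul (by linarith) hpY hlogp.le (by positivity)
    have h6 : M * (a * Real.log p / b) ≤ M * (Y + 1) := by
      apply mul_le_mul_of_nonneg_left h2 (by positivity)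
    have h7 : (M:ℝ) ≤ M * Y := le_mul_of_one_le_right (by linarith) hYr
    linarith
  have hW12 : W ≤ 12 * M * Y := by
    have h1 : c * (Real.exp 1 * X) = Real.exp 1 * (c * X) := by ring
    have h2 : Real.exp 1 ^ N * (M * |Λ| / b) ≤ M := by
      have h3 : Real.exp 1 ^ N * (M * |Λ| / b) = (Real.exp 1 ^ N * |Λ|) * (M / b) := by ring
      rw [h3]
      calc (Real.exp 1 ^ N * |Λ|) * (M / b) ≤ 1 * (M / b) := by gcongr
        _ ≤ M := by
          rw [one_mul]
          exact div_le_self (by positivity) hbr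
    have h4 : Real.exp 1 * (c * X) ≤ 2.7182818286 * (4 * M * Y) := by
      apply mul_le_mul he1.le hcX (by positivity) (by norm_num)
    have h5 : (M:ℝ) ≤ M * Y := le_mul_of_one_le_right (by linarith) hYr
    have h6 : 0 ≤ (M:ℝ) * Y := by positivity
    rw [hW, h1]
    linarith
  have hW0 : 0 ≤ W := by rw [hW]; positivity
  -- each factor
  set F : ℝ := (Real.exp 1 * X) ^ K * Real.exp (L * W) with hF
  have heX1 : 1 ≤ Real.exp 1 * X := by
    have : 1 ≤ Real.exp 1 := by
      rw [← Real.exp_zero]; exact Real.exp_le_exp.mpr (by norm_num)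
    exact one_le_mul_of_one_le_of_one_le this hX1
  have hF0 : 0 < F := by rw [hF]; positivity
  have hprod : ∏ i : Fin K × Fin L, ((Real.exp 1 * X) ^ (i.1 : ℕ) *
      Real.exp ((i.2 : ℕ) * (c * (Real.exp 1 * X) + Real.exp 1 ^ N * (M * |Λ| / b)))) ≤ F ^ N := by
    calc _ ≤ ∏ _i : Fin K × Fin L, F := by
          apply prod_le_prod
          · intro i _
            positivity
          · intro i _
            rw [hF]
            apply mul_le_mul
            · exact pow_le_pow_right₀ heX1 i.1.2.le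
            · apply Real.exp_le_exp.mpr
              rw [← hW]
              apply mul_le_mul_of_nonneg_right _ hW0
              exact_mod_cast i.2.2.le
            · positivity
            · positivity
      _ = F ^ N := by rw [prod_const, card_univ, hNc]
  have hmain : Real.exp 1 ^ (N * (N - 1) / 2) ≤ ((N:ℝ) ^ N * R ^ N) * ((N:ℝ) ^ N * F ^ N) := by
    calc Real.exp 1 ^ (N * (N - 1) / 2) ≤ (((N:ℝ) ^ N * R ^ N) * |E.det|) * Real.exp 1 ^ (N * (N - 1) / 2) := by
          apply le_mul_of_one_le_left (by positivity) hdet1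
      _ = ((N:ℝ) ^ N * R ^ N) * (|E.det| * Real.exp 1 ^ (N * (N - 1) / 2)) := by ring
      _ ≤ ((N:ℝ) ^ N * R ^ N) * (N.factorial * ∏ i : Fin K × Fin L, ((Real.exp 1 * X) ^ (i.1 : ℕ) *
      Real.exp ((i.2 : ℕ) * (c * (Real.exp 1 * X) + Real.exp 1 ^ N * (M * |Λ| / b))))) := by
          apply mul_le_mul_of_nonneg_left hschw (by positivity)
      _ ≤ ((N:ℝ) ^ N * R ^ N) * ((N:ℝ) ^ N * F ^ N) := by
          apply mul_le_mul_of_nonneg_left _ (by positivity)
          apply mul_le_mul _ hprod (by positivity) (by positivity)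
          exact_mod_cast Nat.factorial_le_pow N
  -- take logs
  have hlogmain : ((N * (N - 1) / 2 : ℕ) : ℝ) ≤ N * (2 * Real.log N + Real.log R + Real.log F) := by
    have h1 := Real.log_le_log (by positivity) hmain
    rw [Real.log_pow, Real.log_exp, mul_one, Real.log_mul (by positivity) (by positivity),
      Real.log_mul (by positivity) (by positivity), Real.log_mul (by positivity) (by positivity),
      Real.log_pow, Real.log_pow, Real.log_pow] at h1
    linarith
  have hhalf : ((N * (N - 1) / 2 : ℕ) : ℝ) = N * (N - 1) / 2 := by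
    have hN1 : 1 ≤ N := by exact_mod_cast (by linarith : (1:ℝ) ≤ N)
    rw [Nat.cast_div (even_iff_two_dvd.mp (Nat.even_mul_pred_self N)) (by norm_num)]
    push_cast [Nat.cast_sub hN1]
    ring
  rw [hhalf] at hlogmain
  have hlog2 : (N - 1) / 2 ≤ 2 * Real.log N + Real.log R + Real.log F := by
    have : N * ((N - 1) / 2) ≤ N * (2 * Real.log N + Real.log R + Real.log F) := by linarith
    exact le_of_mul_le_mul_left this hNpos
  have hlogF : Real.log F = K * (1 + Real.log X) + L * W := by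
    rw [hF, Real.log_mul (by positivity) (by positivity), Real.log_pow, Real.log_exp,
      Real.log_mul (by positivity) (by linarith), Real.log_exp]
  have hlogR : Real.log R = K * Real.log X + 2 * (Y * M * L) := by
    rw [hR, Real.log_mul (by positivity) (by positivity), Real.log_pow, Real.log_exp]
  have hXbound : Real.log X ≤ Real.log (338 * Y * L * (a + b)) := by
    apply Real.log_le_log (by linarith)
    rw [hX]
    have : (M + L) * b + M * a ≤ (M + M) * b + (M + M) * (a:ℝ) :=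
      add_le_add (mul_le_mul_of_nonneg_right (by linarith) (by linarith))
        (mul_le_mul_of_nonneg_right (by linarith) (by linarith))
    refine this.trans (le_of_eq ?_)
    rw [hMr]
    ring
  have h8 : 16 * (1 + Real.log X) ≤ L := by linarith
  have hKLN : (K:ℝ) * L = N := by rw [hNdef]; push_cast; ring
  have hA : K * (1 + Real.log X) ≤ K * L / 16 := by
    have h9 : (0:ℝ) ≤ K := by positivity
    have h10 : K * (16 * (1 + Real.log X)) ≤ K * (L:ℝ) := mul_le_mul_of_nonneg_left h8 h9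
    linarith
  have hA' : K * Real.log X ≤ K * (1 + Real.log X) := by
    have h9 : (0:ℝ) ≤ K := by positivity
    linarith
  have hMYL : (Y:ℝ) * M * L = (K:ℝ) * L / 168 := by
    rw [hKr]
    ring
  have hB : L * W ≤ K * L / 14 := by
    have : L * W ≤ L * (12 * M * Y) := by gcongr
    refine this.trans (le_of_eq ?_)
    rw [hKr]
    ring
  have hC : Real.log N ≤ N / 100 + 4 := by
    have h1 : Real.log N = Real.log (N / 100) + Real.log 100 := by
      rw [← Real.log_mul (by positivity) (by norm_num)]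
      congr 1
      ring
    have h2 : Real.log (N / 100) ≤ N / 100 - 1 := Real.log_le_sub_one_of_pos (by positivity)
    have h3 : Real.log 100 ≤ 5 := by
      rw [Real.log_le_iff_le_exp (by norm_num)]
      have : (2.7182818283:ℝ) ^ 5 ≤ Real.exp 1 ^ 5 := by
        apply pow_le_pow_left₀ (by norm_num)
        exact Real.exp_one_gt_d9.le
      rw [← Real.exp_nat_mul] at this
      norm_num at this ⊢
      linarith
    linarith
  rw [hlogF, hlogR, hMYL] at hlog2
  rw [hKLN] at hA hB hlog2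
  linarith

end Pool.Agent.N854.MX2
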